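import Mathlib

/-!
# Hénon maps with a closed set of periodic points (MP_a4e28a_an)

If the set `P(H)` of periodic points of a Hénon map `H = H_{a,b}`, `b ≠ 0`, is closed, then every hyperbolic saddle
periodic point is an isolated point of `P(H)`.

Proof. Let `p` be a saddle, `g = H^k`, `g p = p`. In a small closed ball `V` around `p` no periodic orbit of `g` stays
except `p` (`local_lemma`: stable and unstable coordinates, maximum over the orbit). Let `x n → p` be periodic points,
`x n ≠ p`. Their orbits leave `V`; let `y n` be the last point before the first exit. A limit `z` of the `y n` lies in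
`V`, is periodic since `P(H)` is closed, and its backward orbit stays in `V`. So its whole orbit stays in `V` and
`z = p`. But `g (y n)` is not in `V` and tends to `g p = p`: contradiction (`global_lemma`).
-/

set_option autoImplicit false

namespace H75Y

open Filter Topology

/-- The Hénon map `H_{a,b}(x, y) = (a - x² - b y, x)`. -/
def henon (a b : ℝ) (z : ℝ × ℝ) : ℝ × ℝ := (a - z.1 ^ 2 - b * z.2, z.1)

/-- The set `P(H_{a,b})` of periodic points. -/
def periodicSet (a b : ℝ) : Set (ℝ × ℝ) := {z | ∃ n : ℕ, 1 ≤ n ∧ (henon a b)^[n] z = z}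

/-- `p` is a hyperbolic saddle periodic point of `H_{a,b}`: `H^k p = p` for some `k ≥ 1` and the derivative of
`H^k` at `p` has real eigenvalues `l`, `m` with `|l| < 1 < |m|`. -/
def IsSaddle (a b : ℝ) (p : ℝ × ℝ) : Prop :=
  ∃ k : ℕ, 1 ≤ k ∧ (henon a b)^[k] p = p ∧ ∃ (l m : ℝ) (v w : ℝ × ℝ), |l| < 1 ∧ 1 < |m| ∧ v ≠ 0 ∧ w ≠ 0 ∧
    fderiv ℝ ((henon a b)^[k]) p v = l • v ∧ fderiv ℝ ((henon a b)^[k]) p w = m • w

/-- the inverse map -/
noncomputable def inv (a b : ℝ) (z : ℝ × ℝ) : ℝ × ℝ := (z.2, (a - z.2 ^ 2 - z.1) / b)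

theorem inv_henon {a b : ℝ} (hb : b ≠ 0) : Function.LeftInverse (inv a b) (henon a b) := by
  rintro ⟨x, y⟩
  simp only [inv, henon]
  ext
  · rfl
  · simp only; field_simp; ring

theorem henon_inv {a b : ℝ} (hb : b ≠ 0) : Function.LeftInverse (henon a b) (inv a b) := by
  rintro ⟨x, y⟩
  simp only [inv, henon]
  ext
  · simp only; field_simp; ring
  · rfl

theorem henon_contDiff (a b : ℝ) : ContDiff ℝ 1 (henon a b) := by
  unfold henon
  fun_prop

theorem iter_contDiff (a b : ℝ) (k : ℕ) : ContDiff ℝ 1 ((henon a b)^[k]) := by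
  induction k with
  | zero => exact contDiff_id
  | succ k ih => rw [Function.iterate_succ]; exact ih.comp (henon_contDiff a b)

theorem inv_cont (a b : ℝ) : Continuous (inv a b) := by
  unfold inv
  fun_prop

/-- Near a saddle fixed point no other periodic orbit stays. -/
theorem local_lemma {g : ℝ × ℝ → ℝ × ℝ} {p : ℝ × ℝ} {A : ℝ × ℝ →L[ℝ] ℝ × ℝ} (hg : HasFDerivAt g A p)
    (hp : g p = p) {l m : ℝ} {v w : ℝ × ℝ} (hl : |l| < 1) (hm : 1 < |m|) (hv : v ≠ 0) (hw : w ≠ 0)
    (hAv : A v = l • v) (hAw : A w = m • w) :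
    ∃ δ : ℝ, 0 < δ ∧ ∀ (y : ℝ × ℝ) (q : ℕ), 1 ≤ q → g^[q] y = y →
      (∀ j : ℕ, g^[j] y ∈ Metric.closedBall p δ) → y = p := by
  have hlm : l ≠ m := by
    rintro rfl
    linarith
  set D : ℝ := v.1 * w.2 - v.2 * w.1 with hD
  have hD0 : D ≠ 0 := by
    intro h0
    have hpar : ∀ c : ℝ, w ≠ c • v := by
      intro c hc
      have h1 : A w = l • w := by rw [hc, map_smul, hAv, smul_comm]
      rw [hAw] at h1
      have h2 : (m - l) • w = 0 := by rw [sub_smul, h1, sub_self]
      rcases smul_eq_zero.1 h2 with h3 | h3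
      · exact hlm (sub_eq_zero.1 h3).symm
      · exact hw h3
    by_cases h1 : v.1 = 0
    · have h2 : v.2 ≠ 0 := fun h => hv (Prod.ext h1 h)
      have h3 : w.1 = 0 := by
        rw [hD, h1] at h0
        have : v.2 * w.1 = 0 := by linarith
        rcases mul_eq_zero.1 this with h | h
        · exact absurd h h2
        · exact h
      apply hpar (w.2 / v.2)
      ext
      · simp [h1, h3]
      · simp only [Prod.smul_snd, smul_eq_mul]; field_simp
    · apply hpar (w.1 / v.1)
      ext
      · simp only [Prod.smul_fst, smul_eq_mul]; field_simp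
      · simp only [Prod.smul_snd, smul_eq_mul]
        field_simp
        linarith
  set S : ℝ × ℝ →L[ℝ] ℝ := (w.2 / D) • ContinuousLinearMap.fst ℝ ℝ ℝ - (w.1 / D) • ContinuousLinearMap.snd ℝ ℝ ℝ with hS
  set U : ℝ × ℝ →L[ℝ] ℝ := (v.1 / D) • ContinuousLinearMap.snd ℝ ℝ ℝ - (v.2 / D) • ContinuousLinearMap.fst ℝ ℝ ℝ with hU
  have hSz : ∀ z : ℝ × ℝ, S z = (w.2 * z.1 - w.1 * z.2) / D := by
    intro z
    simp only [hS, sub_apply, smul_apply,
      ContinuousLinearMap.coe_fst', ContinuousLinearMap.coe_snd', smul_eq_mul]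
    ring
  have hUz : ∀ z : ℝ × ℝ, U z = (v.1 * z.2 - v.2 * z.1) / D := by
    intro z
    simp only [hU, sub_apply, smul_apply,
      ContinuousLinearMap.coe_fst', ContinuousLinearMap.coe_snd', smul_eq_mul]
    ring
  have hdec : ∀ z : ℝ × ℝ, z = S z • v + U z • w := by
    intro z
    rw [hSz, hUz]
    ext
    · simp only [Prod.fst_add, Prod.smul_fst, smul_eq_mul]
      field_simp
      rw [hD]; ring
    · simp only [Prod.snd_add, Prod.smul_snd, smul_eq_mul]
      field_simp
      rw [hD]; ring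
  have hSv : S v = 1 := by
    rw [hSz, div_eq_one_iff_eq hD0, hD]; ring
  have hSw : S w = 0 := by
    rw [hSz]; simp [mul_comm]
  have hUv : U v = 0 := by
    rw [hUz]; simp [mul_comm]
  have hUw : U w = 1 := by
    rw [hUz, div_eq_one_iff_eq hD0, hD]
  have hSA : ∀ z, S (A z) = l * S z := by
    intro z
    conv_lhs => rw [hdec z]
    simp only [map_add, map_smul, hAv, hAw, smul_eq_mul, hSv, hSw]
    ring
  have hUA : ∀ z, U (A z) = m * U z := by
    intro z
    conv_lhs => rw [hdec z]
    simp only [map_add, map_smul, hAv, hAw, smul_eq_mul, hUv, hUw]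
    ring
  set C : ℝ := max (max ‖S‖ ‖U‖) (‖v‖ + ‖w‖) with hC
  have hCS : ∀ z, |S z| ≤ C * ‖z‖ := fun z => (S.le_opNorm z).trans
    (mul_le_mul_of_nonneg_right ((le_max_left _ _).trans (le_max_left _ _)) (norm_nonneg _))
  have hCU : ∀ z, |U z| ≤ C * ‖z‖ := fun z => (U.le_opNorm z).trans
    (mul_le_mul_of_nonneg_right ((le_max_right _ _).trans (le_max_left _ _)) (norm_nonneg _))
  have hC0 : 0 < C := lt_of_lt_of_le (add_pos (norm_pos_iff.2 hv) (norm_pos_iff.2 hw)) (le_max_right _ _)
  have hN : ∀ z, ‖z‖ ≤ C * max |S z| |U z| := by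
    intro z
    calc ‖z‖ = ‖S z • v + U z • w‖ := by rw [← hdec z]
      _ ≤ ‖S z • v‖ + ‖U z • w‖ := norm_add_le _ _
      _ = |S z| * ‖v‖ + |U z| * ‖w‖ := by rw [norm_smul, norm_smul, Real.norm_eq_abs, Real.norm_eq_abs]
      _ ≤ max |S z| |U z| * ‖v‖ + max |S z| |U z| * ‖w‖ := by
          gcongr
          · exact le_max_left _ _
          · exact le_max_right _ _
      _ = (‖v‖ + ‖w‖) * max |S z| |U z| := by ring
      _ ≤ C * max |S z| |U z| := by
          gcongr
          exact le_max_right _ _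
  obtain ⟨ε, hε, hε1, hε2⟩ : ∃ ε : ℝ, 0 < ε ∧ |l| + C * (ε * C) < 1 ∧ 1 < |m| - C * (ε * C) := by
    refine ⟨min (1 - |l|) (|m| - 1) / (2 * C ^ 2), by
      have : 0 < min (1 - |l|) (|m| - 1) := lt_min (by linarith) (by linarith)
      positivity, ?_, ?_⟩
    · have h1 : C * (min (1 - |l|) (|m| - 1) / (2 * C ^ 2) * C) = min (1 - |l|) (|m| - 1) / 2 := by
        field_simp
      rw [h1]
      have := min_le_left (1 - |l|) (|m| - 1)
      linarith
    · have h1 : C * (min (1 - |l|) (|m| - 1) / (2 * C ^ 2) * C) = min (1 - |l|) (|m| - 1) / 2 := by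
        field_simp
      rw [h1]
      have := min_le_right (1 - |l|) (|m| - 1)
      linarith
  have hlo := hg.isLittleO.bound (c := ε) hε
  obtain ⟨δ, hδ, hball⟩ := Metric.eventually_nhds_iff.1 hlo
  refine ⟨δ / 2, half_pos hδ, fun y q hq hper hin => ?_⟩
  have hr : ∀ j : ℕ, ‖g^[j + 1] y - p - A (g^[j] y - p)‖ ≤ ε * ‖g^[j] y - p‖ := by
    intro j
    have h1 := hball (y := g^[j] y) (lt_of_le_of_lt (Metric.mem_closedBall.1 (hin j)) (half_lt_self hδ))
    rw [hp] at h1
    rw [Function.iterate_succ_apply']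
    exact h1
  have hmod : ∀ j : ℕ, g^[j] y = g^[j % q] y := by
    intro j
    conv_lhs => rw [← Nat.mod_add_div j q, Function.iterate_add_apply, Function.iterate_mul]
    rw [Function.iterate_fixed hper]
  obtain ⟨i, _, hi⟩ := Finset.exists_max_image (Finset.range q)
    (fun j => max |S (g^[j] y - p)| |U (g^[j] y - p)|) ⟨0, Finset.mem_range.2 (by omega)⟩
  set T : ℝ := max |S (g^[i] y - p)| |U (g^[i] y - p)| with hT
  have hi' : ∀ j : ℕ, max |S (g^[j] y - p)| |U (g^[j] y - p)| ≤ T := by
    intro j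
    rw [hmod j]
    exact hi _ (Finset.mem_range.2 (Nat.mod_lt _ (by omega)))
  have hT0 : 0 ≤ T := (abs_nonneg _).trans (le_max_left _ _)
  have hnr : ∀ j : ℕ, ‖g^[j + 1] y - p - A (g^[j] y - p)‖ ≤ ε * (C * T) := fun j =>
    (hr j).trans (mul_le_mul_of_nonneg_left ((hN _).trans (mul_le_mul_of_nonneg_left (hi' j) hC0.le)) hε.le)
  have hTz : T = 0 := by
    rcases max_choice |S (g^[i] y - p)| |U (g^[i] y - p)| with h | h
    · -- the stable coordinate is the largest one
      have hiq : g^[i] y = g^[i + (q - 1) + 1] y := by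
        have : i + (q - 1) + 1 = i + q := by omega
        rw [this, Function.iterate_add_apply, hper]
      set j := i + (q - 1) with hj
      have h1 : S (g^[i] y - p) = l * S (g^[j] y - p) + S (g^[j + 1] y - p - A (g^[j] y - p)) := by
        rw [hiq, map_sub S (g^[j + 1] y - p), hSA]; ring
      have h2 : T ≤ |l| * T + C * (ε * (C * T)) := by
        calc T = |S (g^[i] y - p)| := by rw [hT, h]
          _ = |l * S (g^[j] y - p) + S (g^[j + 1] y - p - A (g^[j] y - p))| := by rw [← h1]
          _ ≤ |l * S (g^[j] y - p)| + |S (g^[j + 1] y - p - A (g^[j] y - p))| := abs_add_le _ _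
          _ ≤ |l| * T + C * (ε * (C * T)) := by
              rw [abs_mul]
              gcongr
              · exact (le_max_left _ _).trans (hi' j)
              · exact (hCS _).trans (mul_le_mul_of_nonneg_left (hnr j) hC0.le)
      nlinarith
    · have h1 : m * U (g^[i] y - p) = U (g^[i + 1] y - p) - U (g^[i + 1] y - p - A (g^[i] y - p)) := by
        rw [map_sub U (g^[i + 1] y - p), hUA]; ring
      have h2 : |m| * T ≤ T + C * (ε * (C * T)) := by
        calc |m| * T = |m * U (g^[i] y - p)| := by rw [abs_mul, hT, h]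
          _ = |U (g^[i + 1] y - p) - U (g^[i + 1] y - p - A (g^[i] y - p))| := by rw [h1]
          _ ≤ |U (g^[i + 1] y - p)| + |U (g^[i + 1] y - p - A (g^[i] y - p))| := abs_sub _ _
          _ ≤ T + C * (ε * (C * T)) := by
              gcongr
              · exact (le_max_right _ _).trans (hi' (i + 1))
              · exact (hCU _).trans (mul_le_mul_of_nonneg_left (hnr i) hC0.le)
      nlinarith
  have h3 := hN (y - p)
  have h4 := hi' 0
  rw [hTz] at h4
  simp only [Function.iterate_zero, id] at h4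
  have h5 : ‖y - p‖ ≤ 0 := h3.trans (by nlinarith)
  exact sub_eq_zero.1 (norm_le_zero_iff.1 h5)

/-- The global part, for a homeomorphism `g` with inverse `g'` and a set `P` of `g`-periodic points which is closed:
a fixed point `p` with the local property is isolated in `P`. -/
theorem global_lemma {g g' : ℝ × ℝ → ℝ × ℝ} (hg : Continuous g) (hg' : Continuous g')
    (hleft : Function.LeftInverse g' g) {P : Set (ℝ × ℝ)} (hP : IsClosed P)
    (hper : ∀ x ∈ P, ∃ q : ℕ, 1 ≤ q ∧ g^[q] x = x) (hinv : ∀ x ∈ P, g x ∈ P) {p : ℝ × ℝ} (hp : g p = p)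
    (hloc : ∃ δ : ℝ, 0 < δ ∧ ∀ (y : ℝ × ℝ) (q : ℕ), 1 ≤ q → g^[q] y = y →
      (∀ j : ℕ, g^[j] y ∈ Metric.closedBall p δ) → y = p) : p ∉ closure (P \ {p}) := by
  obtain ⟨δ, hδ, hloc⟩ := hloc
  intro hcl
  obtain ⟨x, hx, hlim⟩ := mem_closure_iff_seq_limit.1 hcl
  set V := Metric.closedBall p δ with hV
  have hVn : V ∈ 𝓝 p := Metric.closedBall_mem_nhds p hδ
  have hexit : ∀ n, ∃ j : ℕ, g^[j] (x n) ∉ V := by
    intro n
    by_contra hno
    push Not at hno
    obtain ⟨q, hq, hq'⟩ := hper (x n) (hx n).1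
    exact (hx n).2 (hloc (x n) q hq hq' hno)
  classical
  set t : ℕ → ℕ := fun n => Nat.find (hexit n) with ht
  have ht1 : ∀ n, g^[t n] (x n) ∉ V := fun n => Nat.find_spec (hexit n)
  have ht2 : ∀ n j, j < t n → g^[j] (x n) ∈ V := fun n j hj => not_not.1 (Nat.find_min (hexit n) hj)
  have hpj : ∀ j, g^[j] p = p := fun j => Function.iterate_fixed hp j
  have htT : ∀ T : ℕ, ∀ᶠ n in atTop, T < t n := by
    intro T
    have h1 : ∀ j ∈ Finset.range (T + 1), ∀ᶠ n in atTop, g^[j] (x n) ∈ V := by
      intro j _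
      have h2 : Tendsto (fun n => g^[j] (x n)) atTop (𝓝 (g^[j] p)) := ((hg.iterate j).tendsto p).comp hlim
      rw [hpj] at h2
      exact h2 hVn
    filter_upwards [(Filter.eventually_all_finset (Finset.range (T + 1))).2 h1] with n hn
    by_contra hle
    exact ht1 n (hn (t n) (Finset.mem_range.2 (by omega)))
  set y : ℕ → ℝ × ℝ := fun n => g^[t n - 1] (x n) with hy
  have hyV : ∀ᶠ n in atTop, y n ∈ V := by
    filter_upwards [htT 0] with n hn
    exact ht2 n _ (by omega)
  have hback : ∀ i : ℕ, ∀ᶠ n in atTop, g'^[i] (y n) ∈ V := by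
    intro i
    filter_upwards [htT i] with n hn
    have h1 : y n = g^[i] (g^[t n - 1 - i] (x n)) := by
      have h0 : i + (t n - 1 - i) = t n - 1 := by omega
      rw [← Function.iterate_add_apply, h0]
    rw [h1, (hleft.iterate i) _]
    exact ht2 n _ (by omega)
  obtain ⟨z, hz, φ, hφ, hφz⟩ := (isCompact_closedBall p δ).tendsto_subseq' hyV.frequently
  have hPit : ∀ (j : ℕ) (u : ℝ × ℝ), u ∈ P → g^[j] u ∈ P := by
    intro j
    induction j with
    | zero => exact fun u hu => hu
    | succ j ih => exact fun u hu => by rw [Function.iterate_succ_apply]; exact ih _ (hinv u hu)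
  have hzP : z ∈ P := hP.mem_of_tendsto hφz (Filter.Eventually.of_forall fun n => hPit _ _ (hx _).1)
  have hzback : ∀ i : ℕ, g'^[i] z ∈ V := by
    intro i
    refine Metric.isClosed_closedBall.mem_of_tendsto (((hg'.iterate i).tendsto z).comp hφz) ?_
    exact hφ.tendsto_atTop.eventually (hback i)
  obtain ⟨q, hq, hqz⟩ := hper z hzP
  have hzp : z = p := by
    refine hloc z q hq hqz fun j => ?_
    have h1 : g^[j * (q - 1)] (g^[j] z) = z := by
      rw [← Function.iterate_add_apply]
      have h2 : j * (q - 1) + j = q * j := by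
        obtain ⟨r, rfl⟩ : ∃ r, q = r + 1 := ⟨q - 1, by omega⟩
        simp only [Nat.add_sub_cancel]
        ring
      rw [h2, Function.iterate_mul]
      exact Function.iterate_fixed hqz j
    have h2 : g'^[j * (q - 1)] z = g^[j] z := by
      conv_lhs => rw [← h1]
      exact (hleft.iterate _) _
    rw [← h2]
    exact hzback _
  have hgy : ∀ᶠ n in atTop, g (y n) ∉ V := by
    filter_upwards [htT 0] with n hn
    have h1 : g (y n) = g^[t n] (x n) := by
      have h0 : t n = (t n - 1) + 1 := by omega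
      rw [h0, Function.iterate_succ_apply']
    rw [h1]
    exact ht1 n
  have h3 : Tendsto (fun n => g ((y ∘ φ) n)) atTop (𝓝 (g z)) := (hg.tendsto z).comp hφz
  rw [hzp, hp] at h3
  obtain ⟨n, hn1, hn2⟩ := ((h3.eventually hVn).and (hφ.tendsto_atTop.eventually hgy)).exists
  exact hn2 hn1

/-- If the set of periodic points of a Hénon map is closed, then each of its hyperbolic saddle periodic points is an
isolated point of this set. -/
theorem saddle_isolated (a b : ℝ) (hb : b ≠ 0) (hcl : IsClosed (periodicSet a b)) (p : ℝ × ℝ) (hp : IsSaddle a b p) :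
    p ∉ closure (periodicSet a b \ {p}) := by
  obtain ⟨k, hk, hkp, l, m, v, w, hl, hm, hv, hw, hAv, hAw⟩ := hp
  refine global_lemma (g := (henon a b)^[k]) (g' := (inv a b)^[k]) (iter_contDiff a b k).continuous
    ((inv_cont a b).iterate k) ((inv_henon hb).iterate k) hcl ?_ ?_ hkp
    (local_lemma ((iter_contDiff a b k).differentiable one_ne_zero p).hasFDerivAt hkp hl hm hv hw hAv hAw)
  · rintro x ⟨n, hn, hx⟩
    refine ⟨n, hn, ?_⟩
    rw [← Function.iterate_mul, mul_comm, Function.iterate_mul]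
    exact Function.iterate_fixed hx k
  · rintro x ⟨n, hn, hx⟩
    refine ⟨n, hn, ?_⟩
    rw [← Function.iterate_add_apply, Nat.add_comm, Function.iterate_add_apply, hx]

end H75Y
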